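import Pool.Agent.helper88.HT.Spec

/-! Row ht:CNT. -/

set_option autoImplicit false

namespace Pool.Agent.helper88.HT

open Pool.Agent.helper38.Neg Pool.Agent.helper55.NT

theorem CNT_surj {n : ℕ} : ∀ (k : ℕ) (S : Finset (Fin n)), S.card ≤ k →
    ∃ f : Fin k → Option (Fin n), ∀ i, i ∈ S ↔ ∃ j, f j = some i := by
  intro k
  induction k with
  | zero =>
    intro S hS
    have h0 : S = ∅ := Finset.card_eq_zero.mp (Nat.le_zero.mp hS)
    subst h0
    exact ⟨fun _ => none, fun i => ⟨fun h => absurd h (Finset.notMem_empty i),
      fun ⟨j, _⟩ => j.elim0⟩⟩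
  | succ k ih =>
    intro S hS
    rcases S.eq_empty_or_nonempty with h0 | ⟨a, ha⟩
    · subst h0
      exact ⟨fun _ => none, fun i => ⟨fun h => absurd h (Finset.notMem_empty i),
        fun ⟨j, hj⟩ => by simp at hj⟩⟩
    · have hc : (S.erase a).card ≤ k := by
        rw [Finset.card_erase_of_mem ha]
        omega
      obtain ⟨f, hf⟩ := ih _ hc
      refine ⟨Fin.cons (some a) f, fun i => ?_⟩
      rw [Fin.exists_fin_succ]
      simp only [Fin.cons_zero, Fin.cons_succ]
      rw [← hf i, Finset.mem_erase]
      constructor
      · intro hi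
        by_cases hia : a = i
        · exact Or.inl (by rw [hia])
        · exact Or.inr ⟨fun h => hia h.symm, hi⟩
      · rintro (h | ⟨_, h⟩)
        · have := Option.some.inj h
          rwa [← this]
        · exact h

theorem CNT : CNT_stmt := by
  classical
  intro n k
  have h : (Finset.univ.filter fun S : Finset (Fin n) => S.card ≤ k) ⊆
      (Finset.univ : Finset (Fin k → Option (Fin n))).image
        fun f => Finset.univ.filter fun i => ∃ j, f j = some i := by
    intro S hS
    rw [Finset.mem_filter] at hS
    obtain ⟨f, hf⟩ := CNT_surj k S hS.2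
    rw [Finset.mem_image]
    refine ⟨f, Finset.mem_univ _, ?_⟩
    ext i
    rw [Finset.mem_filter, hf i]
    simp
  refine (Finset.card_le_card h).trans (Finset.card_image_le.trans ?_)
  rw [Finset.card_univ, Fintype.card_fun, Fintype.card_option, Fintype.card_fin, Fintype.card_fin]

end Pool.Agent.helper88.HT
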