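import Pool.Agent.helper88.HT.Spec

/-! Row ht:FMR. -/

set_option autoImplicit false

namespace Pool.Agent.helper88.HT

open Pool.Agent.helper38.Neg Pool.Agent.helper55.NT

theorem FMR (h1 : PHR_stmt) (h2 : OAS_stmt) : FMR_stmt := by
  classical
  intro n m s k t C o Hs P Q
  set F : Set (Fn m) := Set.range P ∪ Set.range Q with hF
  let g : Fin t → Fn m := fun j x => PHI C o (Hs j) (fun i => P i x) (fun i => Q i x)
  have e1 : ∀ j ∈ (Finset.univ : Finset (Fin t)),
      Rel F (2 ^ (k + 2) * (5 * n ^ 2 + s + 1)) 0 {g j} := by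
    intro j _
    exact h1 n m s k C o (Hs j) P Q
  have e4 := Rel.biUnion (Finset.univ : Finset (Fin t)) (fun j => {g j}) e1
  set D : Set (Fn m) := ⋃ j ∈ (Finset.univ : Finset (Fin t)), {g j} with hD
  have e5 : Rel (F ∪ D) ((Finset.univ : Finset (Fin t)).card + 1) 0
      {fun x => FAM C o Hs (fun i => P i x) (fun i => Q i x)} := by
    refine (h2 m (Fin t) Finset.univ g (F ∪ D) ?_).2 _ ?_
    · intro j hj
      exact Or.inr (Set.mem_biUnion hj rfl)
    · intro x
      simp only [FAM, g, decide_eq_true_eq, Finset.mem_univ, true_imp_iff]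
  refine (e4.trans' e5).mono subset_rfl subset_rfl ?_ le_rfl
  rw [Finset.card_univ, Fintype.card_fin]
  omega

end Pool.Agent.helper88.HT
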