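import Pool.Agent.helper88.HT.Spec

/-! Row ht:HF. -/

set_option autoImplicit false

namespace Pool.Agent.helper88.HT

open Pool.Agent.helper38.Neg Pool.Agent.helper55.NT

theorem HF_aux (h1 : HG_stmt) (n k : ℕ) : ∀ (t : ℕ) (W : Finset (Finset (Fin n))),
    (∀ S ∈ W, S.card ≤ k) → ∃ (Hs : Fin t → Fin n → Gk k) (W' : Finset (Finset (Fin n))),
      2 ^ t * W'.card ≤ W.card ∧ ∀ S ∈ W, S ∉ W' → ∃ j, Good (Hs j) S := by
  classical
  intro t
  induction t with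
  | zero =>
    intro W _
    exact ⟨fun j => j.elim0, W, by simp, fun S hS h => absurd hS h⟩
  | succ t ih =>
    intro W hW
    obtain ⟨H, W1, hc, hg⟩ := h1 n k W hW
    obtain ⟨Hs, W2, hc2, hg2⟩ := ih (W ∩ W1) (fun S hS => hW S (Finset.mem_inter.mp hS).1)
    refine ⟨Fin.cons H Hs, W2, ?_, ?_⟩
    · have h3 : (W ∩ W1).card ≤ W1.card := Finset.card_le_card Finset.inter_subset_right
      calc 2 ^ (t + 1) * W2.card = 2 * (2 ^ t * W2.card) := by ring
        _ ≤ 2 * (W ∩ W1).card := Nat.mul_le_mul_left _ hc2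
        _ ≤ 2 * W1.card := Nat.mul_le_mul_left _ h3
        _ ≤ W.card := hc
    · intro S hS hS2
      by_cases hS1 : S ∈ W1
      · obtain ⟨j, hj⟩ := hg2 S (Finset.mem_inter.mpr ⟨hS, hS1⟩) hS2
        exact ⟨j.succ, by rw [Fin.cons_succ]; exact hj⟩
      · exact ⟨0, by rw [Fin.cons_zero]; exact hg S hS hS1⟩

theorem HF (h1 : HG_stmt) (h2 : CNT_stmt) : HF_stmt := by
  classical
  intro n k t ht
  obtain ⟨Hs, W', hc, hg⟩ := HF_aux h1 n k t
    (Finset.univ.filter fun S : Finset (Fin n) => S.card ≤ k)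
    (fun S hS => (Finset.mem_filter.mp hS).2)
  refine ⟨Hs, fun S hS => hg S (Finset.mem_filter.mpr ⟨Finset.mem_univ _, hS⟩) ?_⟩
  intro hmem
  have h3 : 1 ≤ W'.card := Finset.card_pos.mpr ⟨S, hmem⟩
  have h4 : (Finset.univ.filter fun S : Finset (Fin n) => S.card ≤ k).card ≤ (n + 1) ^ k := h2 n k
  have h5 : 2 ^ t * 1 ≤ 2 ^ t * W'.card := Nat.mul_le_mul_left _ h3
  omega

end Pool.Agent.helper88.HT
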