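import Pool.Agent.helper88.HT.Spec

/-! Row ht:HG. -/

set_option autoImplicit false

namespace Pool.Agent.helper88.HT

open Pool.Agent.helper38.Neg Pool.Agent.helper55.NT

theorem HG (h : HC_stmt) : HG_stmt := by
  classical
  intro n k W hW
  have hdc : ∑ H : Fin n → Gk k, (W.filter fun S => ¬ Good H S).card =
      ∑ S ∈ W, (Finset.univ.filter fun H : Fin n → Gk k => ¬ Good H S).card := by
    simp only [Finset.card_filter]
    exact Finset.sum_comm
  have hle : 2 * ∑ H : Fin n → Gk k, (W.filter fun S => ¬ Good H S).card ≤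
      Fintype.card (Fin n → Gk k) * W.card := by
    rw [hdc, Finset.mul_sum]
    calc ∑ S ∈ W, 2 * (Finset.univ.filter fun H : Fin n → Gk k => ¬ Good H S).card
        ≤ ∑ S ∈ W, Fintype.card (Fin n → Gk k) := Finset.sum_le_sum fun S hS => h n k S (hW S hS)
      _ = Fintype.card (Fin n → Gk k) * W.card := by
          rw [Finset.sum_const, smul_eq_mul, mul_comm]
  have hex : ∃ H : Fin n → Gk k, 2 * (W.filter fun S => ¬ Good H S).card ≤ W.card := by
    by_contra hcon
    push Not at hcon
    have h2 : ∑ H : Fin n → Gk k, W.card < ∑ H : Fin n → Gk k, 2 * (W.filter fun S => ¬ Good H S).card :=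
      Finset.sum_lt_sum_of_nonempty Finset.univ_nonempty fun H _ => hcon H
    rw [Finset.sum_const, smul_eq_mul, Finset.card_univ, ← Finset.mul_sum] at h2
    omega
  obtain ⟨H, hH⟩ := hex
  refine ⟨H, W.filter fun S => ¬ Good H S, hH, ?_⟩
  intro S hS hn
  by_contra hg
  exact hn (Finset.mem_filter.mpr ⟨hS, hg⟩)

end Pool.Agent.helper88.HT
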