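import Pool.Agent.helper88.HT.Spec

/-! Row ht:OAS. -/

set_option autoImplicit false

namespace Pool.Agent.helper88.HT

open Pool.Agent.helper38.Neg Pool.Agent.helper55.NT

theorem OAS : OAS_stmt := by
  intro m ι S g F hF
  classical
  constructor
  · induction S using Finset.induction_on with
    | empty =>
      intro h hh
      have e : h = fun _ => false := by
        funext x
        have := hh x
        simp only [Finset.notMem_empty, false_and, exists_false, iff_false, Bool.not_eq_true]
          at this
        exact this
      rw [e]
      exact Rel.const F false
    | insert a S ha ih =>
      intro h hh
      have ih' := ih (fun i hi => hF i (Finset.mem_insert_of_mem hi))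
        (fun x => decide (∃ i ∈ S, g i x = true)) (fun x => by simp)
      have e : h = fun x => g a x || (fun x => decide (∃ i ∈ S, g i x = true)) x := by
        funext x
        rw [Bool.eq_iff_iff, hh x]
        simp
      rw [Finset.card_insert_of_notMem ha, e]
      refine Rel.trans' ih' (Rel.or ?_ ?_)
      · exact Or.inl (hF a (Finset.mem_insert_self a S))
      · exact Or.inr rfl
  · induction S using Finset.induction_on with
    | empty =>
      intro h hh
      have e : h = fun _ => true := by
        funext x
        have := hh x
        simp only [Finset.notMem_empty, false_imp_iff, implies_true, iff_true] at this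
        exact this
      rw [e]
      exact Rel.const F true
    | insert a S ha ih =>
      intro h hh
      have ih' := ih (fun i hi => hF i (Finset.mem_insert_of_mem hi))
        (fun x => decide (∀ i ∈ S, g i x = true)) (fun x => by simp)
      have e : h = fun x => g a x && (fun x => decide (∀ i ∈ S, g i x = true)) x := by
        funext x
        rw [Bool.eq_iff_iff, hh x]
        simp
      rw [Finset.card_insert_of_notMem ha, e]
      refine Rel.trans' ih' (Rel.and ?_ ?_)
      · exact Or.inl (hF a (Finset.mem_insert_self a S))
      · exact Or.inr rfl

end Pool.Agent.helper88.HT
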