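import Pool.Agent.helper88.HT.Spec

/-! Row ht:PHR. -/

set_option autoImplicit false

namespace Pool.Agent.helper88.HT

open Pool.Agent.helper38.Neg Pool.Agent.helper55.NT

theorem PHR_arith (n s K : ℕ) (hK : 2 ≤ K) :
    2 * n * (3 * n * K + 3) + (K * (2 * s) + (K + 1)) ≤ 2 * K * (5 * n ^ 2 + s + 1) := by
  have h1 : 6 * n + 1 ≤ 4 * n ^ 2 * K + K := by
    have h2 : 4 * n ^ 2 * 2 ≤ 4 * n ^ 2 * K := Nat.mul_le_mul_left _ hK
    have h3 : 6 * n ≤ 8 * n ^ 2 + 1 := by
      rcases Nat.eq_zero_or_pos n with h | h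
      · subst h; simp
      · nlinarith
    omega
  nlinarith

theorem PHR (h1 : EXR_stmt) (h2 : OAS_stmt) : PHR_stmt := by
  classical
  intro n m s k C o H P Q
  set F : Set (Fn m) := Set.range P ∪ Set.range Q with hF
  set E : Set (Fn m) :=
    {h | ∃ σ b i, ∀ x, h x = ex H (fun i => P i x) (fun i => Q i x) σ b i} with hE
  have e1 : Rel F (2 * n * (3 * n * 2 ^ (k + 1) + 3)) 0 E := h1 n m k H P Q
  let g : Gk k → Fn m := fun σ x => (dval C (ex H (fun i => P i x) (fun i => Q i x) σ true)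
    (ex H (fun i => P i x) (fun i => Q i x) σ false) o).1
  have e2 : ∀ σ ∈ (Finset.univ : Finset (Gk k)), Rel (F ∪ E) (2 * s) 0 {g σ} := by
    intro σ _
    have e3 := Rel.dual C (fun i (x : Fin m → Bool) =>
      ex H (fun i => P i x) (fun i => Q i x) σ true i) (fun i (x : Fin m → Bool) =>
      ex H (fun i => P i x) (fun i => Q i x) σ false i)
    refine e3.mono ?_ ?_ le_rfl le_rfl
    · rintro f (⟨i, rfl⟩ | ⟨i, rfl⟩)
      · exact Or.inr ⟨σ, true, i, fun x => rfl⟩
      · exact Or.inr ⟨σ, false, i, fun x => rfl⟩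
    · rintro f rfl
      exact Or.inl ⟨o, rfl⟩
  have e4 := Rel.biUnion (Finset.univ : Finset (Gk k)) (fun σ => {g σ}) e2
  set D : Set (Fn m) := ⋃ σ ∈ (Finset.univ : Finset (Gk k)), {g σ} with hD
  have e5 : Rel ((F ∪ E) ∪ D) ((Finset.univ : Finset (Gk k)).card + 1) 0
      {fun x => PHI C o H (fun i => P i x) (fun i => Q i x)} := by
    refine (h2 m (Gk k) Finset.univ g ((F ∪ E) ∪ D) ?_).1 _ ?_
    · intro σ hσ
      exact Or.inr (Set.mem_biUnion hσ rfl)
    · intro x
      simp only [PHI, g, decide_eq_true_eq, Finset.mem_univ, true_and]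
  have e6 := e1.trans' (e4.trans' e5)
  have hcard : (Finset.univ : Finset (Gk k)).card = 2 ^ (k + 1) := by
    rw [Finset.card_univ, Fintype.card_fun, ZMod.card, Fintype.card_fin]
  refine e6.mono subset_rfl subset_rfl ?_ le_rfl
  rw [hcard]
  have hK : 2 ≤ 2 ^ (k + 1) := by
    rw [pow_succ]
    have := Nat.one_le_two_pow (n := k)
    omega
  have := PHR_arith n s (2 ^ (k + 1)) hK
  have h5 : 2 ^ (k + 2) = 2 * 2 ^ (k + 1) := by ring
  rw [h5]
  exact this

end Pool.Agent.helper88.HT
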